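import Mathlib
import Pool.Agent.Run7.h87.Main

set_option autoImplicit false

namespace Pool.Agent.Results.MP_aaabe1_al.EmbedThreeN

/-- Every partial Mendelsohn quasigroup (partial Mendelsohn triple system) of order `n` embeds in
a Mendelsohn quasigroup of order `t` for every admissible `t ≥ 3n + 50`. -/
theorem result :
    ∀ n : ℕ, ∀ p : Fin n → Fin n → Option (Fin n),
      (∀ x y y' z : Fin n, p x y = some z → p x y' = some z → y = y') →
      (∀ x x' y z : Fin n, p x y = some z → p x' y = some z → x = x') →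
      (∀ x z : Fin n, p x x = some z → z = x) →
      (∀ x y z : Fin n, p x y = some z → p y z = some x) →
      ∀ t : ℕ, 3 * n + 50 ≤ t → (t % 3 = 0 ∨ t % 3 = 1) →
        ∃ op : Fin t → Fin t → Fin t,
          (∀ x : Fin t, op x x = x) ∧
          (∀ x y : Fin t, op x (op y x) = y) ∧
          ∃ f : Fin n ↪ Fin t, ∀ x y z : Fin n, p x y = some z → op (f x) (f y) = f z :=
  fun n p h1 h2 h3 h4 t ht ht3 =>
    Pool.Agent.Run7.h87.embed_main n p h1 h2 h3 h4 t ht ht3

end Pool.Agent.Results.MP_aaabe1_al.EmbedThreeN
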